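import Mathlib

set_option autoImplicit false

namespace Pool.Agent.H702Z.AmDefs

/-- `d` is a proper left-invariant metric on the group `G`. -/
def ProperInv {G : Type} [Group G] (d : G → G → ℝ) : Prop :=
  (∀ x y, d x y = d y x) ∧ (∀ x, d x x = 0) ∧ (∀ x y, d x y = 0 → x = y) ∧
    (∀ x y z, d x z ≤ d x y + d y z) ∧ (∀ g x y, d (g * x) (g * y) = d x y) ∧
    (∀ r : ℝ, Set.Finite {x : G | d 1 x ≤ r})

/-- Asymptotic property C of `(X, d)`. -/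
def APC {X : Type} (d : X → X → ℝ) : Prop :=
  ∀ R : ℕ → ℝ, (∀ k, 0 < R k) →
    ∃ n : ℕ, ∃ U : ℕ → Set (Set X),
      (∀ k < n, ∃ B : ℝ, ∀ V ∈ U k, ∀ x ∈ V, ∀ y ∈ V, d x y ≤ B) ∧
      (∀ k < n, ∀ V ∈ U k, ∀ W ∈ U k, V ≠ W → ∀ x ∈ V, ∀ y ∈ W, R k < d x y) ∧
      (∀ x : X, ∃ k < n, ∃ V ∈ U k, x ∈ V)

/-- `N ∩ g N g⁻¹` has finite index in `N` for every `g`. -/
def Commensurated {G : Type} [Group G] (N : Subgroup G) : Prop :=
  ∀ g : G, (N.map (MulAut.conj g).toMonoidHom).relIndex N ≠ 0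

/-- The set of cosets `x N`, `x ∈ P`, has asymptotic dimension at most `n` for the distance
between cosets. For trivial `N` this says `asdim P ≤ n`. -/
def RelAsdimLE {G : Type} [Group G] (d : G → G → ℝ) (N : Subgroup G) (n : ℕ) (P : Set G) :
    Prop :=
  ∀ R : ℝ, 0 < R → ∃ B : ℝ, ∃ U : Fin (n + 1) → Set (Set G),
    (∀ j, ∀ V ∈ U j, ∀ x ∈ V, ∀ y ∈ V, ∃ a ∈ N, ∃ b ∈ N, d (x * a) (y * b) ≤ B) ∧
    (∀ j, ∀ V ∈ U j, ∀ W ∈ U j, V ≠ W → ∀ x ∈ V, ∀ y ∈ W, ∀ a ∈ N, ∀ b ∈ N,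
      R < d (x * a) (y * b)) ∧
    (∀ x ∈ P, ∃ j, ∃ V ∈ U j, x ∈ V)

/-- `g` is a product of fewer than `k` elements of the factors. -/
def Short {G : Bool → Type} [∀ i, Group (G i)] {C : Type} [Group C] (φ : ∀ i, C →* G i)
    (k : ℕ) (g : Monoid.PushoutI φ) : Prop :=
  ∃ l : List (Σ i, G i), l.length < k ∧
    (l.map fun p => Monoid.PushoutI.of (φ := φ) p.1 p.2).prod = g

end Pool.Agent.H702Z.AmDefs
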