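import Mathlib
import Pool.Agent.H179Z.APCExt

set_option autoImplicit false
open Pointwise

namespace Pool.Agent.H702Z.Am
open Pool.Agent.H179Z.APC

section
variable {Γ : Type*} [Group Γ]

/-- `A` is covered by `n` colours at the scales `t`. -/
def CovN (n : ℕ) (t : ℕ → Set Γ) (A : Set Γ) : Prop :=
  ∃ L : Set Γ, L.Finite ∧ ∃ Y : ℕ → Set Γ, (∀ x ∈ A, ∃ i < n, x ∈ Y i) ∧
    ∀ i < n, Sep (t i) L (Y i)

def Cov (t : ℕ → Set Γ) (A : Set Γ) : Prop := ∃ n, CovN n t A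

lemma CovN.mono {n : ℕ} {t : ℕ → Set Γ} {A B : Set Γ} (h : CovN n t A) (hB : B ⊆ A) :
    CovN n t B := by
  obtain ⟨L, hL, Y, h1, h2⟩ := h
  exact ⟨L, hL, Y, fun x hx => h1 x (hB hx), h2⟩

lemma Cov.mono {t : ℕ → Set Γ} {A B : Set Γ} (h : Cov t A) (hB : B ⊆ A) : Cov t B := by
  obtain ⟨n, h⟩ := h
  exact ⟨n, h.mono hB⟩

lemma cov_empty (t : ℕ → Set Γ) : Cov t ∅ :=
  ⟨0, ∅, Set.finite_empty, fun _ => ∅, fun _ hx => hx.elim, fun _ hi => absurd hi (by simp)⟩

lemma CovN.union {n n' : ℕ} {t : ℕ → Set Γ} {A B : Set Γ} (h : CovN n t A)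
    (h' : CovN n' (fun i => t (n + i)) B) : CovN (n + n') t (A ∪ B) := by
  obtain ⟨L, hL, Y, h1, h2⟩ := h
  obtain ⟨L', hL', Y', h1', h2'⟩ := h'
  refine ⟨L ∪ L', hL.union hL', fun i => if i < n then Y i else Y' (i - n), ?_, ?_⟩
  · rintro x (hx | hx)
    · obtain ⟨i, hi, hxi⟩ := h1 x hx
      exact ⟨i, by omega, by simpa [hi] using hxi⟩
    · obtain ⟨i, hi, hxi⟩ := h1' x hx
      refine ⟨n + i, by omega, ?_⟩
      have : ¬ n + i < n := by omega
      simpa [this] using hxi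
  · intro i hi
    by_cases h : i < n
    · simp only [if_pos h]
      exact (h2 i h).mono subset_rfl Set.subset_union_left subset_rfl
    · simp only [if_neg h]
      have := h2' (i - n) (by omega)
      have e : n + (i - n) = i := by omega
      simp only [e] at this
      exact this.mono subset_rfl Set.subset_union_right subset_rfl

lemma CovN.union' {n : ℕ} {t : ℕ → Set Γ} {A B : Set Γ} (h : CovN n t A)
    (h' : Cov (fun i => t (n + i)) B) : Cov t (A ∪ B) := by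
  obtain ⟨n', h'⟩ := h'
  exact ⟨n + n', h.union h'⟩

lemma cov_biUnion {ι : Type*} {S : Set ι} (hS : S.Finite) (A : ι → Set Γ)
    (h : ∀ β ∈ S, ∀ t : ℕ → Set Γ, (∀ i, (t i).Finite) → Cov t (A β)) :
    ∀ t : ℕ → Set Γ, (∀ i, (t i).Finite) → Cov t (⋃ β ∈ S, A β) := by
  induction S, hS using Set.Finite.induction_on with
  | empty => intro t _; simpa using cov_empty t
  | @insert β S _ _ ih =>
    intro t ht
    obtain ⟨n, hn⟩ := h β (Set.mem_insert _ _) t ht
    have := ih (fun γ hγ => h γ (Set.mem_insert_of_mem _ hγ)) (fun i => t (n + i)) fun i => ht _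
    rw [Set.biUnion_insert]
    exact hn.union' this

lemma Sep.pull {Δ : Type*} [Group Δ] {F L Y : Set Δ} {F' L' Y' : Set Γ} (h : Sep F L Y)
    (k : Γ → Δ) (hY : ∀ a ∈ Y', k a ∈ Y)
    (hF : ∀ a ∈ Y', ∀ b ∈ Y', a⁻¹ * b ∈ F' → (k a)⁻¹ * k b ∈ F)
    (hL : ∀ a ∈ Y', ∀ b ∈ Y', (k a)⁻¹ * k b ∈ L → a⁻¹ * b ∈ L') : Sep F' L' Y' := by
  obtain ⟨E, h1, h2⟩ := h
  exact ⟨E.comap k, fun a ha b hb hab => h1 _ (hY a ha) _ (hY b hb) (hF a ha b hb hab),
    fun a ha b hb hab => hL a ha b hb (h2 _ (hY a ha) _ (hY b hb) hab)⟩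

lemma sep_glue {κ : Type*} {F L Y : Set Γ} (w : Γ → κ)
    (h : ∀ c, Sep F L (Y ∩ {g | w g = c}))
    (hw : ∀ a ∈ Y, ∀ b ∈ Y, a⁻¹ * b ∈ F → w a = w b) : Sep F L Y := by
  choose E hE1 hE2 using h
  refine ⟨Setoid.ker fun a => (w a, {b | E (w a) a b}), ?_, ?_⟩
  · intro a ha b hb hab
    have hwab : w a = w b := hw a ha b hb hab
    have hE : E (w a) a b := hE1 (w a) a ⟨ha, rfl⟩ b ⟨hb, hwab.symm⟩ hab
    change (w a, {b | E (w a) a b}) = (w b, {x | E (w b) b x})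
    rw [← hwab]
    congr 1
    ext x
    exact ⟨fun h => (E _).trans ((E _).symm hE) h, fun h => (E _).trans hE h⟩
  · intro a ha b hb hab
    change (w a, {b | E (w a) a b}) = (w b, {x | E (w b) b x}) at hab
    have h1 : w a = w b := congrArg Prod.fst hab
    have h2 : {b | E (w a) a b} = {x | E (w b) b x} := congrArg Prod.snd hab
    apply hE2 (w a) a ⟨ha, rfl⟩ b ⟨hb, h1.symm⟩
    have : b ∈ {x | E (w b) b x} := (E _).refl b
    rw [← h2] at this
    exact this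

/-- Right translation of covers. -/
lemma Cov.translate {t : ℕ → Set Γ} {A : Set Γ} (β : Γ)
    (h : Cov (fun i => (fun x => β⁻¹ * x * β) '' t i) A) : Cov t {g | g * β ∈ A} := by
  obtain ⟨n, L, hL, Y, h1, h2⟩ := h
  refine ⟨n, (fun x => β * x * β⁻¹) '' L, hL.image _, fun i => {g | g * β ∈ Y i},
    fun x hx => h1 _ hx, fun i hi => ?_⟩
  refine Sep.pull (h2 i hi) (fun g => g * β) (fun a ha => ha) ?_ ?_
  · intro a _ b _ hab
    exact ⟨_, hab, by group⟩
  · intro a _ b _ hab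
    exact ⟨_, hab, by group⟩

lemma cov_subgroup (H : Subgroup Γ) (hH : GAPC H) (t : ℕ → Set Γ) (ht : ∀ i, (t i).Finite) :
    Cov t (H : Set Γ) := by
  classical
  obtain ⟨n, L, hL, Y, h1, h2⟩ := hH (fun i => Subtype.val ⁻¹' t i)
    fun i => (ht i).preimage Subtype.val_injective.injOn
  refine ⟨n, Subtype.val '' L, hL.image _, fun i => Subtype.val '' Y i, ?_, ?_⟩
  · intro x hx
    obtain ⟨i, hi, hxi⟩ := h1 ⟨x, hx⟩
    exact ⟨i, hi, _, hxi, rfl⟩
  · intro i hi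
    let k : Γ → H := fun g => if h : g ∈ H then ⟨g, h⟩ else 1
    have hk : ∀ x : H, k x = x := fun x => by simp [k]
    refine Sep.pull (h2 i hi) k ?_ ?_ ?_
    · rintro _ ⟨x, hx, rfl⟩
      rw [hk]; exact hx
    · rintro _ ⟨x, hx, rfl⟩ _ ⟨y, hy, rfl⟩ hab
      rw [hk, hk]
      exact hab
    · rintro _ ⟨x, hx, rfl⟩ _ ⟨y, hy, rfl⟩ hab
      rw [hk, hk] at hab
      exact ⟨_, hab, rfl⟩

/-- `S` lies in finitely many left cosets of `N`. -/
def NFin (N : Subgroup Γ) (S : Set Γ) : Prop :=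
  ∃ F : Set Γ, F.Finite ∧ ∀ x ∈ S, ∃ f ∈ F, f⁻¹ * x ∈ N

def Comm (N : Subgroup Γ) : Prop := ∀ g : Γ, NFin N ((N : Set Γ) * {g})

lemma NFin.mono {N : Subgroup Γ} {S S' : Set Γ} (h : NFin N S) (hS : S' ⊆ S) : NFin N S' := by
  obtain ⟨F, hF, h⟩ := h
  exact ⟨F, hF, fun x hx => h x (hS hx)⟩

lemma nfin_of_finite (N : Subgroup Γ) {S : Set Γ} (h : S.Finite) : NFin N S :=
  ⟨S, h, fun x hx => ⟨x, hx, by simp⟩⟩

lemma nfin_self (N : Subgroup Γ) : NFin N (N : Set Γ) :=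
  ⟨{1}, Set.finite_singleton _, fun x hx => ⟨1, rfl, by simpa using hx⟩⟩

lemma NFin.union {N : Subgroup Γ} {S S' : Set Γ} (h : NFin N S) (h' : NFin N S') :
    NFin N (S ∪ S') := by
  obtain ⟨F, hF, h⟩ := h
  obtain ⟨F', hF', h'⟩ := h'
  refine ⟨F ∪ F', hF.union hF', ?_⟩
  rintro x (hx | hx)
  · obtain ⟨f, hf, e⟩ := h x hx
    exact ⟨f, Or.inl hf, e⟩
  · obtain ⟨f, hf, e⟩ := h' x hx
    exact ⟨f, Or.inr hf, e⟩

lemma NFin.mul {N : Subgroup Γ} (hN : Comm N) {S S' : Set Γ} (h : NFin N S) (h' : NFin N S') :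
    NFin N (S * S') := by
  obtain ⟨F, hF, h⟩ := h
  obtain ⟨F', hF', h'⟩ := h'
  choose Φ hΦ1 hΦ2 using hN
  refine ⟨F * ⋃ f ∈ F', Φ f, hF.mul (hF'.biUnion fun f _ => hΦ1 f), ?_⟩
  rintro _ ⟨x, hx, y, hy, rfl⟩
  obtain ⟨f, hf, e⟩ := h x hx
  obtain ⟨f', hf', e'⟩ := h' y hy
  obtain ⟨g, hg, e''⟩ := hΦ2 f' (f⁻¹ * x * f') ⟨_, e, _, rfl, rfl⟩
  refine ⟨f * g, Set.mul_mem_mul hf (Set.mem_biUnion hf' hg), ?_⟩
  have := N.mul_mem e'' e'
  simpa [mul_assoc] using this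

lemma NFin.inv {N : Subgroup Γ} (hN : Comm N) {S : Set Γ} (h : NFin N S) : NFin N S⁻¹ := by
  obtain ⟨F, hF, h⟩ := h
  refine ((nfin_self N).mul hN (nfin_of_finite N hF.inv)).mono ?_
  intro x hx
  obtain ⟨f, hf, e⟩ := h x⁻¹ hx
  exact ⟨_, N.inv_mem e, f⁻¹, by simpa using hf, by simp⟩

lemma NFin.big {N : Subgroup Γ} (hN : Comm N) {F L : Set Γ} (h : NFin N F) (h' : NFin N L) :
    NFin N (big F L) := by
  have hs : NFin N (sym F) :=
    (h.union (h.inv hN)).union (nfin_of_finite N (Set.finite_singleton _))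
  exact (hs.mul hN (h'.union (nfin_of_finite N (Set.finite_singleton _)))).mul hN hs

end

lemma exists_colouring {X : Type*} (D : ℕ) (nb : X → Finset X) (hD : ∀ x, (nb x).card ≤ D) :
    ∃ m : X → ℕ, (∀ x, m x ≤ D) ∧ ∀ x y, y ∈ nb x → x ∈ nb y → x ≠ y → m x ≠ m y := by
  classical
  let r : X → X → Prop := WellOrderingRel
  have wf : WellFounded r := (WellOrderingRel.isWellOrder (α := X)).wf
  have hex : ∀ x (ih : ∀ y, r y x → ℕ), ∃ c ≤ D, ∀ y (h : r y x), y ∈ nb x → ih y h ≠ c := by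
    intro x ih
    let S : Finset ℕ := (nb x).image fun y => if h : r y x then ih y h else 0
    have hS : S.card < (Finset.range (D + 1)).card := by
      rw [Finset.card_range]
      exact Nat.lt_succ_of_le (Finset.card_image_le.trans (hD x))
    obtain ⟨c, hc, hcS⟩ := Finset.exists_mem_notMem_of_card_lt_card hS
    refine ⟨c, by simpa [Nat.lt_succ_iff] using hc, fun y h hy e => hcS ?_⟩
    exact Finset.mem_image.2 ⟨y, hy, by simp [h, e]⟩
  choose Φ hΦ1 hΦ2 using hex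
  let m : X → ℕ := wf.fix Φ
  have hm : ∀ x, m x = Φ x fun y _ => m y := fun x => wf.fix_eq Φ x
  have key : ∀ x y, r y x → y ∈ nb x → m y ≠ m x := by
    intro x y h hy
    rw [hm x]
    exact hΦ2 x (fun y _ => m y) y h hy
  refine ⟨m, fun x => by rw [hm x]; exact hΦ1 _ _, fun x y hy hx hne => ?_⟩
  rcases trichotomous_of r x y with h | h | h
  · exact key y x h hx
  · exact (hne h).elim
  · exact (key x y h hy).symm

section
variable {Γ : Type*} [Group Γ]

lemma exists_index {N : Subgroup Γ} (hN : Comm N) {L : Set Γ} (hL : NFin N L) :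
    ∃ M : ℕ, ∃ m : Γ → ℕ, (∀ g, m g < M) ∧ (∀ a b, a⁻¹ * b ∈ N → m a = m b) ∧
      ∀ a b, a⁻¹ * b ∈ L → m a = m b → a⁻¹ * b ∈ N := by
  classical
  obtain ⟨F, hF, h⟩ := (nfin_self N).mul hN (hL.union (hL.inv hN))
  let nb : Γ ⧸ N → Finset (Γ ⧸ N) := fun x =>
    hF.toFinset.image fun f => (QuotientGroup.mk (x.out * f) : Γ ⧸ N)
  obtain ⟨m, hm1, hm2⟩ := exists_colouring hF.toFinset.card nb fun x => Finset.card_image_le
  have key : ∀ a b : Γ, a⁻¹ * b ∈ L ∪ L⁻¹ →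
      (QuotientGroup.mk b : Γ ⧸ N) ∈ nb (QuotientGroup.mk a) := by
    intro a b hab
    have h0 : ((QuotientGroup.mk a : Γ ⧸ N).out)⁻¹ * a ∈ N := by
      rw [← QuotientGroup.eq]
      exact QuotientGroup.out_eq' _
    obtain ⟨f, hf, e⟩ := h _ ⟨_, h0, _, hab, rfl⟩
    refine Finset.mem_image.2 ⟨f, by simpa using hf, ?_⟩
    rw [QuotientGroup.eq]
    simpa [mul_assoc] using e
  refine ⟨hF.toFinset.card + 1, fun g => m (QuotientGroup.mk g),
    fun g => Nat.lt_succ_of_le (hm1 _), ?_, ?_⟩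
  · intro a b hab
    simp only [QuotientGroup.eq.2 hab]
  · intro a b hab hm
    by_contra hne
    refine hm2 _ _ (key a b (Or.inl hab)) (key b a (Or.inr (by simpa using hab))) ?_ hm
    exact fun e => hne (QuotientGroup.eq.1 e)

def PQ (N : Subgroup Γ) (l : ℕ) (s : ℕ → {F : Set Γ // F.Finite}) : Prop :=
  ∀ (A : Set Γ) (w : ℕ → Γ → ℕ × Set Γ),
    (∀ i < l, ∀ a ∈ A, ∀ b ∈ A, w i a = w i b → a⁻¹ * b ∈ N) →
    ∀ t : ℕ → Set Γ, (∀ i, (t i).Finite) →
      ∃ L : Set Γ, L.Finite ∧ ∃ Y : ℕ → Set Γ, (∀ i, Y i ⊆ A) ∧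
        (∀ i < l, ∀ c, Sep (s i).1 L (Y i ∩ {g | w i g = c})) ∧
        Cov t {x | x ∈ A ∧ ∀ i < l, x ∉ Y i}

/-- The hypothesis of the relative fibering theorem. -/
def RelBase (N : Subgroup Γ) : Prop :=
  ∀ R : ℕ → Set Γ, (∀ i, (R i).Finite) → ∃ n : ℕ, ∀ t : ℕ → Set Γ, (∀ i, (t i).Finite) →
    ∃ near : Set Γ, Cov t nearᶜ ∧ ∃ L : Set Γ, NFin N L ∧ ∃ Z : ℕ → Set Γ,
      (∀ x ∈ near, ∃ j < n, x ∈ Z j) ∧ ∀ j < n, Sep (R j) L (Z j)

lemma pq_step {N : Subgroup Γ} (hN : Comm N) (hb : RelBase N) (l : ℕ)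
    (s : ℕ → {F : Set Γ // F.Finite}) (h : ∀ r, PQ N (l + 1) (Function.update s l r)) :
    PQ N l s := by
  classical
  intro A w hA t ht
  obtain ⟨n, hn⟩ := hb t ht
  obtain ⟨near, ⟨n1, hfar⟩, L0, hL0, Z, hZ, hsepZ⟩ := hn (fun i => t (n + i)) fun i => ht _
  obtain ⟨M, m, hM, hm1, hm2⟩ := exists_index hN hL0
  have hcol : ∀ x, ∃ j, x ∈ near → j < n ∧ x ∈ Z j := by
    intro x
    by_cases hx : x ∈ near
    · obtain ⟨j, hj, hxj⟩ := hZ x hx
      exact ⟨j, fun _ => ⟨hj, hxj⟩⟩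
    · exact ⟨0, fun h => (hx h).elim⟩
  choose col hcol using hcol
  have hE : ∀ j, ∃ E : Setoid Γ, j < n → (∀ a ∈ Z j, ∀ b ∈ Z j, a⁻¹ * b ∈ t j → E a b) ∧
      (∀ a ∈ Z j, ∀ b ∈ Z j, E a b → a⁻¹ * b ∈ L0) := by
    intro j
    by_cases hj : j < n
    · obtain ⟨E, hE⟩ := hsepZ j hj
      exact ⟨E, fun _ => hE⟩
    · exact ⟨⊤, fun h => (hj h).elim⟩
  choose E hE using hE
  let wl : Γ → ℕ × Set Γ := fun a => (col a, {b | E (col a) a b})
  have hwl1 : ∀ a ∈ near, ∀ b ∈ near, wl a = wl b → a⁻¹ * b ∈ L0 := by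
    intro a ha b hb hab
    have h1 : col a = col b := congrArg Prod.fst hab
    have h2 : {x | E (col a) a x} = {x | E (col b) b x} := congrArg Prod.snd hab
    refine (hE (col a) (hcol a ha).1).2 a (hcol a ha).2 b (h1 ▸ (hcol b hb).2) ?_
    have : b ∈ {x | E (col b) b x} := (E _).refl b
    rw [← h2] at this
    exact this
  have hwl2 : ∀ a ∈ near, ∀ b ∈ near, col a = col b → a⁻¹ * b ∈ t (col a) → wl a = wl b := by
    intro a ha b hb hc hab
    have hEab : E (col a) a b :=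
      (hE (col a) (hcol a ha).1).1 a (hcol a ha).2 b (hc ▸ (hcol b hb).2) hab
    change (col a, {x | E (col a) a x}) = (col b, {x | E (col b) b x})
    rw [← hc]
    congr 1
    ext x
    exact ⟨fun h => (E _).trans ((E _).symm hEab) h, fun h => (E _).trans hEab h⟩
  let F : Set Γ := ⋃ j ∈ Set.Iio n, t j
  have hF : F.Finite := (Set.finite_Iio _).biUnion fun j _ => ht j
  have key : ∀ K : ℕ, ∀ τ : ℕ → Set Γ, (∀ i, (τ i).Finite) →
      ∃ L : Set Γ, L.Finite ∧ ∃ Y : ℕ → Set Γ, (∀ i, Y i ⊆ A ∩ near ∩ {g | m g < K}) ∧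
        (∀ i < l, ∀ c, Sep (s i).1 L (Y i ∩ {g | w i g = c})) ∧
        (∀ c, Sep F L (Y l ∩ {g | wl g = c})) ∧
        Cov τ {x | x ∈ A ∩ near ∩ {g | m g < K} ∧ ∀ i < l + 1, x ∉ Y i} := by
    intro K
    induction K with
    | zero =>
      intro τ _
      refine ⟨∅, Set.finite_empty, fun _ => ∅, fun _ => Set.empty_subset _, ?_, ?_, ?_⟩
      · intro i _ c
        simpa using sep_empty _ _
      · intro c
        simpa using sep_empty _ _
      · refine (cov_empty τ).mono ?_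
        intro x hx
        exact absurd hx.1.2 (by simp)
    | succ K ih =>
      intro τ hτ
      obtain ⟨L, hL, Y, hYA, hs1, hs2, n2, hc⟩ := ih τ hτ
      obtain ⟨L', hL', Y', hYA', hs', hc'⟩ := h ⟨big F L, big_finite hF hL⟩
        (A ∩ near ∩ {g | m g = K}) (Function.update w l wl) (by
          intro i hi a ha b hb hab
          by_cases hil : i = l
          · subst hil
            rw [Function.update_self] at hab
            exact hm2 a b (hwl1 a ha.1.2 b hb.1.2 hab) (ha.2.trans hb.2.symm)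
          · rw [Function.update_of_ne hil] at hab
            exact hA i (by omega) a ha.1.1 b hb.1.1 hab)
        (fun i => τ (n2 + i)) fun i => hτ _
      refine ⟨L ∪ L' ∪ big F L * L' * big F L, (hL.union hL').union
        (((big_finite hF hL).mul hL').mul (big_finite hF hL)), fun i => Y i ∪ Y' i, ?_, ?_, ?_, ?_⟩
      · rintro i x (hx | hx)
        · exact ⟨(hYA i hx).1, Nat.lt_succ_of_lt (hYA i hx).2⟩
        · refine ⟨(hYA' i hx).1, ?_⟩
          have : m x = K := (hYA' i hx).2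
          change m x < K + 1
          omega
      · intro i hi c
        have h1 := hs1 i hi c
        have h2 := hs' i (by omega) c
        have hne : i ≠ l := by omega
        rw [Function.update_of_ne hne, Function.update_of_ne hne] at h2
        by_cases hex : ∃ a, a ∈ Y i ∧ w i a = c
        · obtain ⟨a, ha, hac⟩ := hex
          refine h1.mono subset_rfl (fun x hx => Or.inl (Or.inl hx)) ?_
          rintro b ⟨hb | hb, hbc⟩
          · exact ⟨hb, hbc⟩
          · exfalso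
            have hf := hA i hi a (hYA i ha).1.1 b (hYA' i hb).1.1 (hac.trans hbc.symm)
            have e1 := hm1 a b hf
            have e2 : m a < K := (hYA i ha).2
            have e3 : m b = K := (hYA' i hb).2
            omega
        · refine h2.mono subset_rfl (fun x hx => Or.inl (Or.inr hx)) ?_
          rintro b ⟨hb | hb, hbc⟩
          · exact (hex ⟨b, hb, hbc⟩).elim
          · exact ⟨hb, hbc⟩
      · intro c
        have h2 := hs' l (by omega) c
        rw [Function.update_self, Function.update_self] at h2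
        refine (sep_union (hs2 c) h2).mono subset_rfl ?_ ?_
        · rintro x (hx | hx)
          · exact Or.inl (Or.inl hx)
          · exact Or.inr hx
        · rw [Set.union_inter_distrib_right]
      · refine (hc.union' hc').mono ?_
        rintro x ⟨hx, hxY⟩
        have hx2 : m x < K + 1 := hx.2
        by_cases hK : m x = K
        · exact Or.inr ⟨⟨hx.1, hK⟩, fun i hi h => hxY i hi (Or.inr h)⟩
        · exact Or.inl ⟨⟨hx.1, by change m x < K; omega⟩, fun i hi h => hxY i hi (Or.inl h)⟩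
  obtain ⟨L, hL, Y, hYA, hs1, hs2, hc⟩ := key M (fun i => t (n + (n1 + i))) fun i => ht _
  refine ⟨L, hL, Y, fun i x hx => (hYA i hx).1.1, hs1, ?_⟩
  have h1 : CovN n t (Y l) := by
    refine ⟨L, hL, fun j => Y l ∩ {g | col g = j}, ?_, ?_⟩
    · intro x hx
      exact ⟨col x, (hcol x (hYA l hx).1.2).1, hx, rfl⟩
    · intro j hj
      apply sep_glue wl
      · intro c
        refine (hs2 c).mono (fun x hx => Set.mem_biUnion hj hx) subset_rfl ?_
        exact fun x hx => ⟨hx.1.1, hx.2⟩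
      · intro a ha b hb hab
        have ha2 : col a = j := ha.2
        have hb2 : col b = j := hb.2
        exact hwl2 a (hYA l ha.1).1.2 b (hYA l hb.1).1.2 (ha2.trans hb2.symm) (ha2 ▸ hab)
  refine (h1.union' (hfar.union' hc)).mono ?_
  rintro x ⟨hx, hxY⟩
  by_cases hl : x ∈ Y l
  · exact Or.inl hl
  · by_cases hnear : x ∈ near
    · refine Or.inr (Or.inr ⟨⟨⟨hx, hnear⟩, hM x⟩, fun i hi => ?_⟩)
      by_cases hil : i = l
      · exact hil ▸ hl
      · exact hxY i (by omega)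
    · exact Or.inr (Or.inl hnear)

/-- Relative fibering theorem. -/
theorem rel_fibering {N : Subgroup Γ} (hN : Comm N) (hA : GAPC N) (hb : RelBase N) :
    GAPC Γ := by
  classical
  have h0 : PQ N 0 fun _ => ⟨∅, Set.finite_empty⟩ := by
    apply wf_tree (PQ N) _ (pq_step hN hb)
    intro R
    obtain ⟨l, L, hL, Y, hcov, hsep⟩ := hA (fun i => Subtype.val ⁻¹' (R i).1)
      fun i => (R i).2.preimage Subtype.val_injective.injOn
    have h0 : ∀ a : Γ, ((QuotientGroup.mk a : Γ ⧸ N).out)⁻¹ * a ∈ N := by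
      intro a
      rw [← QuotientGroup.eq]
      exact QuotientGroup.out_eq' _
    let k : Γ → N := fun a => ⟨_, h0 a⟩
    have hk : ∀ a b : Γ, a⁻¹ * b ∈ N → (((k a)⁻¹ * k b : N) : Γ) = a⁻¹ * b := by
      intro a b hab
      simp [k, QuotientGroup.eq.2 hab, mul_assoc]
    refine ⟨l, fun s hs A w hw t ht => ⟨Subtype.val '' L, hL.image _,
      fun i => A ∩ k ⁻¹' Y i, fun i => Set.inter_subset_left, ?_, ?_⟩⟩
    · intro i hi c
      rw [hs i hi]
      refine Sep.pull (hsep i hi) k (fun a ha => ha.1.2) ?_ ?_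
      · intro a ha b hb hab
        change (((k a)⁻¹ * k b : N) : Γ) ∈ (R i).1
        rw [hk a b (hw i hi a ha.1.1 b hb.1.1 (ha.2.trans hb.2.symm))]
        exact hab
      · intro a ha b hb hab
        exact ⟨_, hab, hk a b (hw i hi a ha.1.1 b hb.1.1 (ha.2.trans hb.2.symm))⟩
    · refine (cov_empty t).mono ?_
      rintro x ⟨hx, hxY⟩
      obtain ⟨i, hi, hxi⟩ := hcov (k x)
      exact hxY i hi ⟨hx, hxi⟩
  intro t ht
  obtain ⟨-, -, Y, -, -, n, L, hL, X, h1, h2⟩ := h0 Set.univ (fun _ _ => (0, ∅))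
    (fun i hi => absurd hi (by simp)) t ht
  exact ⟨n, L, hL, X, fun x => h1 x ⟨trivial, fun i hi => absurd hi (by simp)⟩, h2⟩

end

end Pool.Agent.H702Z.Am
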