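import Mathlib
import Pool.Agent.H702Z.RelFib

set_option autoImplicit false
open Pointwise

namespace Pool.Agent.H702Z.Am
open Pool.Agent.H179Z.APC

/-- Abstract normal form data for an amalgam. -/
structure Tr (Γ : Type) [Group Γ] (α : Type) : Type where
  ty : α → Bool
  ev : α → Γ
  H : Bool → Subgroup Γ
  C : Subgroup Γ
  u : Γ → List α
  ev_mem : ∀ x, ev x ∈ H (ty x)
  C_le : ∀ i, C ≤ H i
  a1 : ∀ g, ((u g).map ev).prod * g ∈ C
  a2 : ∀ g i h, h ∈ H i → ∃ p p' c, u g = p ++ c ∧ u (g * h) = p' ++ c ∧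
    (p = [] ∨ ∃ x, ty x = i ∧ p = [x]) ∧ (p' = [] ∨ ∃ x, ty x = i ∧ p' = [x])

variable {Γ : Type} [Group Γ] {α : Type} (T : Tr Γ α)

lemma Tr.induct (P : Γ → Prop) (h1 : ∀ i, ∀ h ∈ T.H i, P h)
    (h2 : ∀ a b, P a → P b → P (a * b)) (g : Γ) : P g := by
  have hl : ∀ l : List α, P (l.map T.ev).prod := by
    intro l
    induction l with
    | nil => exact h1 true _ (by simpa using (T.H true).one_mem)
    | cons x l ih =>
      rw [List.map_cons, List.prod_cons]
      exact h2 _ _ (h1 _ _ (T.ev_mem x)) ih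
  have := h2 _ _ (h1 true _ (T.C_le true (T.C.inv_mem (T.a1 g⁻¹)))) (hl (T.u g⁻¹))
  simpa using this

lemma Tr.same {a b : Γ} (h : T.u a = T.u b) : a⁻¹ * b ∈ T.C := by
  have := T.C.mul_mem (T.C.inv_mem (T.a1 a)) (T.a1 b)
  rw [h] at this
  simpa [mul_assoc] using this

lemma Tr.suffix (f : Γ) : ∃ r : ℕ, ∀ a, ∃ p p' c, T.u a = p ++ c ∧ T.u (a * f) = p' ++ c ∧
    p.length ≤ r ∧ p'.length ≤ r := by
  induction f using T.induct with
  | h1 i h hh =>
    refine ⟨1, fun a => ?_⟩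
    obtain ⟨p, p', c, e1, e2, h1, h2⟩ := T.a2 a i h hh
    refine ⟨p, p', c, e1, e2, ?_, ?_⟩
    · rcases h1 with rfl | ⟨x, -, rfl⟩ <;> simp
    · rcases h2 with rfl | ⟨x, -, rfl⟩ <;> simp
  | h2 f f' ih ih' =>
    obtain ⟨r, hr⟩ := ih
    obtain ⟨r', hr'⟩ := ih'
    refine ⟨r + r', fun a => ?_⟩
    obtain ⟨p1, p1', c1, e1, e2, h1, h2⟩ := hr a
    obtain ⟨p2, p2', c2, e3, e4, h3, h4⟩ := hr' (a * f)
    rw [← mul_assoc]
    rw [e2] at e3
    rcases List.append_eq_append_iff.1 e3 with ⟨x, hx1, hx2⟩ | ⟨x, hx1, hx2⟩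
    · refine ⟨p1 ++ x, p2', c2, by rw [e1, hx2]; simp, e4, ?_, by omega⟩
      have := congrArg List.length hx1
      simp only [List.length_append] at this ⊢
      omega
    · refine ⟨p1, p2' ++ x, c1, e1, by rw [e4, hx2]; simp, by omega, ?_⟩
      have := congrArg List.length hx1
      simp only [List.length_append] at this ⊢
      omega

lemma Tr.suffix_set {F : Set Γ} (hF : F.Finite) : ∃ r : ℕ, ∀ f ∈ F, ∀ a, ∃ p p' c,
    T.u a = p ++ c ∧ T.u (a * f) = p' ++ c ∧ p.length ≤ r ∧ p'.length ≤ r := by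
  choose r hr using T.suffix
  obtain ⟨R, hR⟩ := (hF.image r).bddAbove
  refine ⟨R, fun f hf a => ?_⟩
  obtain ⟨p, p', c, e1, e2, h1, h2⟩ := hr f a
  have := hR ⟨f, hf, rfl⟩
  exact ⟨p, p', c, e1, e2, by omega, by omega⟩

lemma Tr.far_aux (f : Γ) : ∃ B : Set Γ, B.Finite ∧ ∀ a i c, (∀ β ∈ B, T.u (a * β) ≠ c) →
    (∃ q y, T.ty y = i ∧ T.u a = q ++ y :: c) → ∃ q y, T.ty y = i ∧ T.u (a * f) = q ++ y :: c := by
  induction f using T.induct with
  | h1 j h hh =>
    refine ⟨{h}, Set.finite_singleton _, ?_⟩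
    rintro a i c hB ⟨q, y, hy, e⟩
    obtain ⟨p, p', c', e1, e2, h1, h2⟩ := T.a2 a j h hh
    rcases h1 with rfl | ⟨x, hx, rfl⟩
    · refine ⟨p' ++ q, y, hy, ?_⟩
      rw [e2, List.append_assoc, ← e, e1]
      rfl
    · cases q with
      | cons z q =>
        rw [e1] at e
        simp only [List.cons_append, List.nil_append, List.cons.injEq] at e
        exact ⟨p' ++ q, y, hy, by rw [e2, e.2, List.append_assoc]⟩
      | nil =>
        rw [e1] at e
        simp only [List.cons_append, List.nil_append, List.cons.injEq] at e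
        obtain ⟨rfl, rfl⟩ := e
        rcases h2 with rfl | ⟨x', hx', rfl⟩
        · exact (hB h rfl e2).elim
        · exact ⟨[], x', by rw [hx', ← hx, hy], e2⟩
  | h2 f f' ih ih' =>
    obtain ⟨B, hB, h⟩ := ih
    obtain ⟨B', hB', h'⟩ := ih'
    refine ⟨B ∪ (fun x => f * x) '' B', hB.union (hB'.image _), fun a i c hc ha => ?_⟩
    rw [← mul_assoc]
    apply h' (a * f) i c
    · intro β hβ
      rw [mul_assoc]
      exact hc _ (Or.inr ⟨β, hβ, rfl⟩)
    · exact h a i c (fun β hβ => hc β (Or.inl hβ)) ha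

lemma Tr.far {F : Set Γ} (hF : F.Finite) : ∃ B : Set Γ, B.Finite ∧ ∀ a b, a⁻¹ * b ∈ F →
    T.u a ≠ [] → T.u b ≠ [] → (∀ β ∈ B, T.u (a * β) ≠ (T.u a).tail) →
    (∀ β ∈ B, T.u (b * β) ≠ (T.u b).tail) → (T.u a).tail = (T.u b).tail := by
  choose B hB h using T.far_aux
  refine ⟨⋃ f ∈ F, B f ∪ B f⁻¹, hF.biUnion fun f _ => (hB _).union (hB _), ?_⟩
  intro a b hab ha hb h1 h2
  obtain ⟨x, c, ea⟩ := List.exists_cons_of_ne_nil ha
  obtain ⟨x', c', eb⟩ := List.exists_cons_of_ne_nil hb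
  rw [ea] at h1
  rw [eb] at h2
  obtain ⟨q, y, -, e1⟩ := h (a⁻¹ * b) a (T.ty x) c
    (fun β hβ => h1 β (Set.mem_biUnion hab (Or.inl hβ))) ⟨[], x, rfl, ea⟩
  obtain ⟨q', y', -, e2⟩ := h (a⁻¹ * b)⁻¹ b (T.ty x') c'
    (fun β hβ => h2 β (Set.mem_biUnion hab (Or.inr hβ))) ⟨[], x', rfl, eb⟩
  simp only [mul_inv_cancel_left, mul_inv_rev, inv_inv] at e1 e2
  have l1 := congrArg List.length (e1.symm.trans eb)
  have l2 := congrArg List.length (e2.symm.trans ea)
  simp only [List.length_append, List.length_cons] at l1 l2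
  have hq : q = [] := List.length_eq_zero_iff.1 (by omega)
  subst hq
  rw [ea, e1]
  rfl

def Tr.PD (D : List α → List α) : Prop :=
  ∀ t : ℕ → Set Γ, (∀ i, (t i).Finite) → ∃ B : Set Γ, B.Finite ∧
    Cov t {g | ∀ β ∈ B, T.u (g * β) ≠ D (T.u g)}

lemma Tr.cov_far_type (hH : ∀ i, GAPC (T.H i)) (i : Bool) (t : ℕ → Set Γ)
    (ht : ∀ i, (t i).Finite) : ∃ B : Set Γ, B.Finite ∧
    Cov t {g | (∃ x c, T.ty x = i ∧ T.u g = x :: c) ∧ ∀ β ∈ B, T.u (g * β) ≠ (T.u g).tail} := by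
  classical
  obtain ⟨n, L, hL, Y, h1, h2⟩ := hH i (fun j => Subtype.val ⁻¹' t j)
    fun j => (ht j).preimage Subtype.val_injective.injOn
  obtain ⟨B, hB, hfar⟩ := T.far (F := ⋃ j ∈ Set.Iio n, t j)
    ((Set.finite_Iio _).biUnion fun j _ => ht j)
  refine ⟨B, hB, n, Subtype.val '' L, hL.image _, ?_⟩
  set A := {g | (∃ x c, T.ty x = i ∧ T.u g = x :: c) ∧ ∀ β ∈ B, T.u (g * β) ≠ (T.u g).tail}
    with hAdef
  have hmem : ∀ g ∈ A, ((T.u g).tail.map T.ev).prod * g ∈ T.H i := by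
    rintro g ⟨⟨x, c, hx, e⟩, -⟩
    have h3 := T.C_le i (T.a1 g)
    have h4 : T.ev x ∈ T.H i := hx ▸ T.ev_mem x
    rw [e] at h3 ⊢
    have := (T.H i).mul_mem ((T.H i).inv_mem h4) h3
    simpa [mul_assoc] using this
  let k : Γ → T.H i := fun g => if h : g ∈ A then ⟨_, hmem g h⟩ else 1
  have hk : ∀ a ∈ A, ∀ b ∈ A, (T.u a).tail = (T.u b).tail →
      (((k a)⁻¹ * k b : T.H i) : Γ) = a⁻¹ * b := by
    intro a ha b hb hab
    simp only [k, dif_pos ha, dif_pos hb, Subgroup.coe_mul, Subgroup.coe_inv, hab]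
    group
  refine ⟨fun j => A ∩ k ⁻¹' Y j, ?_, ?_⟩
  · intro x hx
    obtain ⟨j, hj, hxj⟩ := h1 (k x)
    exact ⟨j, hj, hx, hxj⟩
  · intro j hj
    apply sep_glue fun g => (T.u g).tail
    · intro c
      refine Sep.pull (h2 j hj) k (fun a ha => ha.1.2) ?_ ?_
      · intro a ha b hb hab
        change (((k a)⁻¹ * k b : T.H i) : Γ) ∈ t j
        rw [hk a ha.1.1 b hb.1.1 (ha.2.trans hb.2.symm)]
        exact hab
      · intro a ha b hb hab
        exact ⟨_, hab, hk a ha.1.1 b hb.1.1 (ha.2.trans hb.2.symm)⟩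
    · rintro a ⟨⟨⟨x, c, -, ea⟩, ha⟩, -⟩ b ⟨⟨⟨x', c', -, eb⟩, hb⟩, -⟩ hab
      exact hfar a b (Set.mem_biUnion hj hab) (by simp [ea]) (by simp [eb]) ha hb

lemma Tr.pd_tail (hH : ∀ i, GAPC (T.H i)) : T.PD List.tail := by
  intro t ht
  obtain ⟨B, hB, n, h⟩ := T.cov_far_type hH true t ht
  obtain ⟨B', hB', h'⟩ := T.cov_far_type hH false (fun i => t (n + i)) fun i => ht _
  refine ⟨B ∪ B' ∪ {1}, (hB.union hB').union (Set.finite_singleton _), (h.union' h').mono ?_⟩
  intro g hg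
  have hne : T.u g ≠ [] := by
    intro e
    apply hg 1 (Or.inr rfl)
    simp [e]
  obtain ⟨x, c, e⟩ := List.exists_cons_of_ne_nil hne
  cases hx : T.ty x with
  | true => exact Or.inl ⟨⟨x, c, hx, e⟩, fun β hβ => hg β (Or.inl (Or.inl hβ))⟩
  | false => exact Or.inr ⟨⟨x, c, hx, e⟩, fun β hβ => hg β (Or.inl (Or.inr hβ))⟩

lemma Tr.pd_trans {D : List α → List α} (h : T.PD D) {S : Set Γ} (hS : S.Finite) :
    ∀ t : ℕ → Set Γ, (∀ i, (t i).Finite) → ∃ B : Set Γ, B.Finite ∧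
      Cov t {g | ∃ β ∈ S, ∀ γ ∈ B, T.u (g * β * γ) ≠ D (T.u (g * β))} := by
  induction S, hS using Set.Finite.induction_on with
  | empty =>
    intro t _
    exact ⟨∅, Set.finite_empty, (cov_empty t).mono (by simp)⟩
  | @insert β S _ _ ih =>
    intro t ht
    obtain ⟨B, hB, n, hn⟩ := ih t ht
    obtain ⟨B', hB', h'⟩ := h (fun i => (fun x => β⁻¹ * x * β) '' t (n + i))
      fun i => (ht _).image _
    have h2 := Cov.translate (t := fun i => t (n + i)) β h'
    refine ⟨B ∪ B', hB.union hB', (hn.union' h2).mono ?_⟩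
    rintro g ⟨γ, rfl | hγ, hg⟩
    · exact Or.inr fun δ hδ => hg δ (Or.inr hδ)
    · exact Or.inl ⟨γ, hγ, fun δ hδ => hg δ (Or.inl hδ)⟩

lemma Tr.pd_drop (hH : ∀ i, GAPC (T.H i)) (k : ℕ) : T.PD (List.drop k) := by
  induction k with
  | zero =>
    intro t _
    refine ⟨{1}, Set.finite_singleton _, (cov_empty t).mono ?_⟩
    intro g hg
    exact hg 1 rfl (by simp)
  | succ k ih =>
    intro t ht
    obtain ⟨B, hB, n, hn⟩ := ih t ht
    obtain ⟨B', hB', h'⟩ := T.pd_trans (T.pd_tail hH) hB (fun i => t (n + i)) fun i => ht _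
    refine ⟨B * B', hB.mul hB', (hn.union' h').mono ?_⟩
    intro g hg
    by_cases h : ∀ β ∈ B, T.u (g * β) ≠ List.drop k (T.u g)
    · exact Or.inl h
    · push Not at h
      obtain ⟨β, hβ, e⟩ := h
      refine Or.inr ⟨β, hβ, fun γ hγ => ?_⟩
      rw [e, List.tail_drop, mul_assoc]
      exact hg _ (Set.mul_mem_mul hβ hγ)

lemma Tr.cov_ball (hH : ∀ i, GAPC (T.H i)) (D : ℕ) (t : ℕ → Set Γ) (ht : ∀ i, (t i).Finite) :
    Cov t {g | (T.u g).length ≤ D} := by
  obtain ⟨B, hB, n, hn⟩ := T.pd_drop hH D t ht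
  have h2 := cov_biUnion hB (fun β => {g | g * β ∈ (T.H true : Set Γ)}) (fun β _ s hs =>
    Cov.translate β (cov_subgroup _ (hH true) _ fun i => (hs i).image _))
    (fun i => t (n + i)) fun i => ht _
  refine (hn.union' h2).mono ?_
  intro g hg
  by_cases h : ∀ β ∈ B, T.u (g * β) ≠ List.drop D (T.u g)
  · exact Or.inl h
  · push Not at h
    obtain ⟨β, hβ, e⟩ := h
    refine Or.inr (Set.mem_biUnion hβ ?_)
    rw [List.drop_eq_nil_of_le hg] at e
    have := T.a1 (g * β)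
    rw [e] at this
    exact T.C_le true (by simpa using this)

/-- Asymptotic dimension at most `n` relative to `N`. -/
def RA (N : Subgroup Γ) (n : ℕ) (P : Set Γ) : Prop :=
  ∀ S : Set Γ, NFin N S → ∃ L : Set Γ, NFin N L ∧ ∃ Y : ℕ → Set Γ,
    (∀ x ∈ P, ∃ j ≤ n, x ∈ Y j) ∧ ∀ j ≤ n, Sep S L (Y j)

def TW {κ : Type} (N : Subgroup Γ) (n : ℕ) (win : Γ → κ) (A : Set Γ) : Prop :=
  ∀ S : Set Γ, NFin N S → ∃ L : Set Γ, NFin N L ∧ ∃ Y : ℕ → Set Γ,
    (∀ x ∈ A, ∃ j ≤ n, x ∈ Y j) ∧ ∀ j ≤ n, ∀ c, Sep S L (Y j ∩ {g | win g = c})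

lemma tw_empty {κ : Type} (N : Subgroup Γ) (n : ℕ) (win : Γ → κ) : TW N n win ∅ :=
  fun _ _ => ⟨∅, nfin_of_finite N Set.finite_empty, fun _ => ∅, fun _ hx => hx.elim,
    fun _ _ _ => by simpa using sep_empty _ _⟩

lemma TW.union {κ : Type} {N : Subgroup Γ} (hN : Comm N) {n : ℕ} {win : Γ → κ} {A A' : Set Γ}
    (h : TW N n win A) (h' : TW N n win A') : TW N n win (A ∪ A') := by
  intro S hS
  obtain ⟨L, hL, Y, h1, h2⟩ := h S hS
  have hb := hS.big hN hL
  obtain ⟨L', hL', Y', h1', h2'⟩ := h' (big S L) hb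
  refine ⟨L ∪ big S L * L' * big S L, hL.union ((hb.mul hN hL').mul hN hb),
    fun j => Y j ∪ Y' j, ?_, ?_⟩
  · rintro x (hx | hx)
    · obtain ⟨j, hj, hxj⟩ := h1 x hx
      exact ⟨j, hj, Or.inl hxj⟩
    · obtain ⟨j, hj, hxj⟩ := h1' x hx
      exact ⟨j, hj, Or.inr hxj⟩
  · intro j hj c
    rw [Set.union_inter_distrib_right]
    exact sep_union (h2 j hj c) (h2' j hj c)

lemma tw_biUnion {κ ι : Type} {N : Subgroup Γ} (hN : Comm N) {n : ℕ} {win : Γ → κ}
    {S : Set ι} (hS : S.Finite) (A : ι → Set Γ) (h : ∀ β ∈ S, TW N n win (A β)) :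
    TW N n win (⋃ β ∈ S, A β) := by
  induction S, hS using Set.Finite.induction_on with
  | empty => simpa using tw_empty N n win
  | @insert β S _ _ ih =>
    rw [Set.biUnion_insert]
    exact (h β (Set.mem_insert _ _)).union hN (ih fun γ hγ => h γ (Set.mem_insert_of_mem _ hγ))

lemma tw_of_ra {κ : Type} {N : Subgroup Γ} (hN : Comm N) {n : ℕ} {win : Γ → κ} {A P : Set Γ}
    (hP : RA N n P) (β : Γ)
    (h : ∀ a ∈ A, ∀ b ∈ A, win a = win b → (a * β)⁻¹ * (b * β) ∈ P) : TW N n win A := by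
  classical
  intro S hS
  have h1 := nfin_of_finite N (Set.finite_singleton β)
  have h2 := nfin_of_finite N (Set.finite_singleton β⁻¹)
  obtain ⟨L, hL, Y, hc, hs⟩ := hP ({β⁻¹} * S * {β}) ((h2.mul hN hS).mul hN h1)
  have hx : ∀ c, ∃ x, (∃ a ∈ A, win a = c) → x ∈ A ∧ win x = c := by
    intro c
    by_cases hc : ∃ a ∈ A, win a = c
    · obtain ⟨a, ha⟩ := hc
      exact ⟨a, fun _ => ha⟩
    · exact ⟨1, fun h => (hc h).elim⟩
  choose x hx using hx
  let φ : Γ → Γ := fun a => (x (win a) * β)⁻¹ * (a * β)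
  have hφ : ∀ a b, win a = win b → (φ a)⁻¹ * φ b = β⁻¹ * (a⁻¹ * b) * β := by
    intro a b hab
    simp only [φ, hab]
    group
  refine ⟨{β} * L * {β⁻¹}, (h1.mul hN hL).mul hN h2, fun j => φ ⁻¹' Y j, ?_, ?_⟩
  · intro a ha
    obtain ⟨h3, h4⟩ := hx (win a) ⟨a, ha, rfl⟩
    exact hc _ (h _ h3 a ha h4)
  · intro j hj c
    refine Sep.pull (hs j hj) φ (fun a ha => ha.1) ?_ ?_
    · intro a ha b hb hab
      rw [hφ a b (ha.2.trans hb.2.symm)]
      exact Set.mul_mem_mul (Set.mul_mem_mul rfl hab) rfl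
    · intro a ha b hb hab
      rw [hφ a b (ha.2.trans hb.2.symm)] at hab
      have : a⁻¹ * b = β * (β⁻¹ * (a⁻¹ * b) * β) * β⁻¹ := by group
      rw [this]
      exact Set.mul_mem_mul (Set.mul_mem_mul rfl hab) rfl

theorem Tr.relBase (hH : ∀ i, GAPC (T.H i)) {N : Subgroup Γ} (hN : Comm N) (k n : ℕ)
    (hk : ∀ a β, (T.u (a * β)).length + k ≤ (T.u a).length →
      RA N n {x | x ∈ T.C ∧ β⁻¹ * x * β ∈ T.C}) : RelBase N := by
  intro R hR
  refine ⟨2 * (n + 1), fun t ht => ?_⟩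
  have hF : (⋃ j ∈ Set.Iio (2 * (n + 1)), R j).Finite :=
    (Set.finite_Iio _).biUnion fun j _ => hR j
  set F := ⋃ j ∈ Set.Iio (2 * (n + 1)), R j with hFdef
  obtain ⟨r, hr⟩ := T.suffix_set hF
  let q : Γ → ℕ := fun a => (T.u a).length / (r + 1)
  let win : Γ → ℕ × List α := fun a => (q a, (T.u a).reverse.take (q a * (r + 1) - r))
  obtain ⟨B1, hB1, n1, hc1⟩ := T.pd_drop hH (2 * r + 1) t ht
  obtain ⟨B2, hB2, n2, hc2⟩ := T.pd_trans (T.pd_drop hH k) hB1 (fun i => t (n1 + i)) fun i => ht _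
  have hc3 := T.cov_ball hH (2 * r + 1 + k) (fun i => t (n1 + (n2 + i))) fun i => ht _
  let cls : Γ × Γ × ℕ → Set Γ := fun p => {g | T.u (g * p.1) = (T.u g).drop (2 * r + 1) ∧
    T.u (g * p.1 * p.2.1) = (T.u (g * p.1)).drop k ∧ 2 * r + 1 + k ≤ (T.u g).length ∧
    (T.u g).length % (r + 1) = p.2.2}
  have hI : (B1 ×ˢ B2 ×ˢ Set.Iio (r + 1)).Finite := hB1.prod (hB2.prod (Set.finite_Iio _))
  have htw : TW N n win (⋃ p ∈ B1 ×ˢ B2 ×ˢ Set.Iio (r + 1), cls p) := by
    apply tw_biUnion hN hI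
    rintro ⟨β1, β2, o⟩ -
    rcases (cls (β1, β2, o)).eq_empty_or_nonempty with he | ⟨a0, h1, h2, h3, -⟩
    · rw [he]
      exact tw_empty N n win
    · refine tw_of_ra hN (hk (a0 * β1) β2 ?_) β1 ?_
      · simp only at h1 h2
        rw [h2, h1]
        simp only [List.length_drop]
        omega
      · rintro a ⟨ha1, ha2, ha3, ha4⟩ b ⟨hb1, hb2, hb3, hb4⟩ hab
        simp only at ha1 ha2 ha4 hb1 hb2 hb4
        have hq : q a = q b := congrArg Prod.fst hab
        have hs : (T.u a).reverse.take (q a * (r + 1) - r) =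
            (T.u b).reverse.take (q b * (r + 1) - r) := congrArg Prod.snd hab
        have la := Nat.div_add_mod (T.u a).length (r + 1)
        have lb := Nat.div_add_mod (T.u b).length (r + 1)
        have lo : (T.u a).length % (r + 1) < r + 1 := Nat.mod_lt _ (by omega)
        change (r + 1) * q a + _ = _ at la
        change (r + 1) * q b + _ = _ at lb
        rw [← hq] at lb hs
        rw [mul_comm] at la lb
        have hl : (T.u a).length = (T.u b).length := by omega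
        have hd : (T.u a).drop (2 * r + 1) = (T.u b).drop (2 * r + 1) := by
          have e := congrArg (List.take ((T.u a).length - (2 * r + 1))) hs
          rw [List.take_take, List.take_take, min_eq_left (by omega), List.take_reverse,
            List.take_reverse, List.reverse_inj] at e
          have e1 : (T.u a).length - ((T.u a).length - (2 * r + 1)) = 2 * r + 1 := by omega
          have e2 : (T.u b).length - ((T.u a).length - (2 * r + 1)) = 2 * r + 1 := by omega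
          rwa [e1, e2] at e
        have e1 : T.u (a * β1) = T.u (b * β1) := by rw [ha1, hb1, hd]
        have e2 : T.u (a * β1 * β2) = T.u (b * β1 * β2) := by rw [ha2, hb2, e1]
        refine ⟨T.same e1, ?_⟩
        have := T.same e2
        simpa [mul_assoc] using this
  obtain ⟨L, hL, Y, hY1, hY2⟩ := htw F (nfin_of_finite N hF)
  refine ⟨⋃ p ∈ B1 ×ˢ B2 ×ˢ Set.Iio (r + 1), cls p, (hc1.union' (hc2.union' hc3)).mono ?_, L, hL,
    fun j => Y (j / 2) ∩ {a | q a % 2 = j % 2}, ?_, ?_⟩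
  · intro g hg
    by_contra hcon
    simp only [Set.mem_union, not_or, Set.mem_setOf_eq] at hcon
    obtain ⟨h1, h2, h3⟩ := hcon
    push Not at h1 h2 h3
    obtain ⟨β1, hβ1, e1⟩ := h1
    obtain ⟨β2, hβ2, e2⟩ := h2 β1 hβ1
    exact hg (Set.mem_biUnion (x := (β1, β2, (T.u g).length % (r + 1)))
      ⟨hβ1, hβ2, Nat.mod_lt _ (by omega)⟩ ⟨e1, e2, h3.le, rfl⟩)
  · intro x hx
    obtain ⟨j, hj, hxj⟩ := hY1 x hx
    have := Nat.mod_lt (q x) (show 0 < 2 by norm_num)
    refine ⟨2 * j + q x % 2, by omega, ?_, ?_⟩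
    · have e : (2 * j + q x % 2) / 2 = j := by omega
      simpa only [e] using hxj
    · change q x % 2 = (2 * j + q x % 2) % 2
      omega
  · intro j hj
    apply sep_glue win
    · intro c
      refine (hY2 (j / 2) (by omega) c).mono (fun x hx => Set.mem_biUnion hj hx) subset_rfl ?_
      exact fun x hx => ⟨hx.1.1, hx.2⟩
    · intro a ha b hb hab
      obtain ⟨p, p', c, h1', h2', h3, h4⟩ := hr _ (Set.mem_biUnion hj hab) a
      rw [mul_inv_cancel_left] at h2'
      have la : (T.u a).length = p.length + c.length := by rw [h1']; simp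
      have lb : (T.u b).length = p'.length + c.length := by rw [h2']; simp
      have ha' : q a % 2 = j % 2 := ha.2
      have hb' : q b % 2 = j % 2 := hb.2
      have e1 : q a * (r + 1) ≤ (T.u a).length := Nat.div_mul_le_self _ _
      have e2 : q b * (r + 1) ≤ (T.u b).length := Nat.div_mul_le_self _ _
      have e3 : (T.u a).length < (q a + 1) * (r + 1) := by
        rw [mul_comm]; exact Nat.lt_mul_div_succ _ (by omega)
      have e4 : (T.u b).length < (q b + 1) * (r + 1) := by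
        rw [mul_comm]; exact Nat.lt_mul_div_succ _ (by omega)
      have hq : q a = q b := by
        by_contra hne
        rcases Nat.lt_or_gt_of_ne hne with h | h
        · have : q a + 2 ≤ q b := by omega
          have := Nat.mul_le_mul_right (r + 1) this
          nlinarith
        · have : q b + 2 ≤ q a := by omega
          have := Nat.mul_le_mul_right (r + 1) this
          nlinarith
      change (q a, _) = (q b, _)
      rw [← hq]
      have hk : q a * (r + 1) - r ≤ c.reverse.length := by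
        rw [List.length_reverse]
        omega
      congr 1
      rw [h1', h2', List.reverse_append, List.reverse_append, List.take_append_of_le_length hk,
        List.take_append_of_le_length hk]

theorem Tr.gapc (hH : ∀ i, GAPC (T.H i)) {N : Subgroup Γ} (hN : Comm N) (hA : GAPC N) (k n : ℕ)
    (hk : ∀ a β, (T.u (a * β)).length + k ≤ (T.u a).length →
      RA N n {x | x ∈ T.C ∧ β⁻¹ * x * β ∈ T.C}) : GAPC Γ :=
  rel_fibering hN hA (T.relBase hH hN k n hk)

end Pool.Agent.H702Z.Am
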