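import Mathlib
import Pool.Agent.H702Z.AmTree
import Pool.Agent.H702Z.AmDefs

set_option autoImplicit false
open Pointwise

namespace Pool.Agent.H702Z.Am
open Pool.Agent.H179Z.APC Pool.Agent.H702Z.AmDefs Monoid Monoid.PushoutI

lemma comm_of {Γ : Type} [Group Γ] {N : Subgroup Γ} (h : Commensurated N) : Comm N := by
  intro g
  have hfi : ((N.map (MulAut.conj g).toMonoidHom).subgroupOf N).FiniteIndex := ⟨h g⟩
  have hfin : Finite (N ⧸ (N.map (MulAut.conj g).toMonoidHom).subgroupOf N) := inferInstance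
  refine ⟨Set.range fun x : N ⧸ (N.map (MulAut.conj g).toMonoidHom).subgroupOf N =>
    (x.out : Γ) * g, Set.finite_range _, ?_⟩
  rintro _ ⟨x, hx, g', hg', rfl⟩
  have hg'' : g = g' := hg'.symm
  subst hg''
  refine ⟨_, ⟨QuotientGroup.mk ⟨x, hx⟩, rfl⟩, ?_⟩
  have h0 := QuotientGroup.eq.1 (QuotientGroup.out_eq'
    (QuotientGroup.mk ⟨x, hx⟩ : N ⧸ (N.map (MulAut.conj g).toMonoidHom).subgroupOf N))
  obtain ⟨y, hy, e⟩ := Subgroup.mem_subgroupOf.1 h0
  simp only [MulEquiv.toMonoidHom_eq_coe, MonoidHom.coe_coe, MulAut.conj_apply, Subgroup.coe_mul,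
    Subgroup.coe_inv] at e
  have : ∀ z : Γ, g * y * g⁻¹ = z⁻¹ * x → (z * g)⁻¹ * (x * g) = y := by
    intro z hz
    calc (z * g)⁻¹ * (x * g) = g⁻¹ * (z⁻¹ * x) * g := by group
      _ = y := by rw [← hz]; group
  have h5 := this _ e
  have h6 : y ∈ N := hy
  rw [← h5] at h6
  exact h6

lemma ra_of {Γ : Type} [Group Γ] {d : Γ → Γ → ℝ} (hd : ProperInv d) {N : Subgroup Γ}
    (hN : Comm N) {n : ℕ} {P : Set Γ} (h : RelAsdimLE d N n P) : RA N n P := by
  obtain ⟨-, -, -, -, hinv, hprop⟩ := hd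
  have hd : ∀ x y : Γ, d 1 (x⁻¹ * y) = d x y := by
    intro x y
    rw [← hinv x]
    simp
  rintro S ⟨F, hF, hS⟩
  obtain ⟨r, hr⟩ := (hF.image (d 1)).bddAbove
  obtain ⟨B, U, h1, h2, h3⟩ := h (max r 1) (by positivity)
  refine ⟨(N : Set Γ) * {x | d 1 x ≤ B} * (N : Set Γ),
    ((nfin_self N).mul hN (nfin_of_finite N (hprop B))).mul hN (nfin_self N),
    fun j => if hj : j < n + 1 then ⋃₀ U ⟨j, hj⟩ else ∅, ?_, ?_⟩
  · intro x hx
    obtain ⟨j, V, hV, hxV⟩ := h3 x hx
    refine ⟨j, Nat.lt_succ_iff.1 j.2, ?_⟩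
    simp only [dif_pos j.2]
    exact ⟨V, hV, hxV⟩
  · intro j hj
    have hj' : j < n + 1 := Nat.lt_succ_of_le hj
    simp only [dif_pos hj']
    apply sep_of_family
    · intro V hV x hx y hy
      obtain ⟨a, ha, b, hb, e⟩ := h1 _ V hV x hx y hy
      rw [← hd] at e
      have : x⁻¹ * y = a * ((x * a)⁻¹ * (y * b)) * b⁻¹ := by group
      rw [this]
      exact Set.mul_mem_mul (Set.mul_mem_mul ha e) (N.inv_mem hb)
    · intro V hV W hW hne x hx y hy hxy
      obtain ⟨f, hf, e⟩ := hS _ hxy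
      have h4 := h2 _ V hV W hW hne x hx y hy 1 N.one_mem _ (N.inv_mem e)
      rw [← hd] at h4
      have e2 : (x * 1)⁻¹ * (y * (f⁻¹ * (x⁻¹ * y))⁻¹) = f := by group
      rw [e2] at h4
      have h5 : d 1 f ≤ r := hr ⟨f, hf, rfl⟩
      have := le_max_left r 1
      linarith

lemma Tr.len_le {Γ : Type} [Group Γ] {α : Type} (T : Tr Γ α) (l : List α) :
    ∀ a, (T.u a).length ≤ (T.u (a * (l.map T.ev).prod)).length + l.length := by
  induction l with
  | nil => intro a; simp
  | cons x l ih =>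
    intro a
    obtain ⟨p, p', c, e1, e2, h1, -⟩ := T.a2 a _ _ (T.ev_mem x)
    have h2 := ih (a * T.ev x)
    rw [List.map_cons, List.prod_cons, ← mul_assoc]
    have h3 : p.length ≤ 1 := by rcases h1 with rfl | ⟨x, -, rfl⟩ <;> simp
    have h4 := congrArg List.length e1
    have h5 := congrArg List.length e2
    simp only [List.length_append, List.length_cons] at *
    omega

variable {G : Bool → Type} [∀ i, Group (G i)] {C : Type} [Group C] {φ : ∀ i, C →* G i}

lemma rcons_list [∀ i, DecidableEq (G i)] {d : NormalWord.Transversal φ} (i : Bool)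
    (p : NormalWord.Pair d i) : ∃ q, (NormalWord.rcons i p).toList = q ++ p.tail.toList ∧
      (q = [] ∨ ∃ x : Σ i, G i, x.1 = i ∧ q = [x]) := by
  simp only [NormalWord.rcons, CoprodI.Word.equivPair_symm, CoprodI.Word.rcons]
  split_ifs with h
  · exact ⟨[], rfl, Or.inl rfl⟩
  · exact ⟨[⟨i, _⟩], rfl, Or.inr ⟨_, rfl, rfl⟩⟩

lemma exists_tr (hφ : ∀ i, Function.Injective (φ i)) :
    ∃ T : Tr (PushoutI φ) (Σ i, G i), (∀ x, T.ev x = of (φ := φ) x.1 x.2) ∧
      (∀ i, T.H i = (of (φ := φ) i).range) ∧ T.C = (base φ).range := by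
  classical
  obtain ⟨d⟩ := NormalWord.transversal_nonempty φ hφ
  refine ⟨{ ty := Sigma.fst
            ev := fun x => of (φ := φ) x.1 x.2
            H := fun i => (of (φ := φ) i).range
            C := (base φ).range
            u := fun g => (g⁻¹ • (NormalWord.empty : NormalWord d)).toList
            ev_mem := fun x => ⟨x.2, rfl⟩
            C_le := ?_
            a1 := ?_
            a2 := ?_ }, fun _ => rfl, fun _ => rfl, rfl⟩
  · rintro i _ ⟨c, rfl⟩
    exact ⟨φ i c, of_apply_eq_base φ i c⟩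
  · intro g
    have h := NormalWord.prod_smul g⁻¹ (NormalWord.empty : NormalWord d)
    rw [NormalWord.prod_empty, mul_one, NormalWord.prod, CoprodI.Word.prod, map_list_prod,
      List.map_map] at h
    refine ⟨(g⁻¹ • (NormalWord.empty : NormalWord d)).head⁻¹, ?_⟩
    have h2 : List.map (⇑(ofCoprodI (φ := φ)) ∘ fun l : Σ i, G i => CoprodI.of l.snd)
        (g⁻¹ • (NormalWord.empty : NormalWord d)).toList =
        List.map (fun x => of (φ := φ) x.1 x.2)
          (g⁻¹ • (NormalWord.empty : NormalWord d)).toList :=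
      List.map_congr_left fun x _ => by simp
    rw [h2] at h
    rw [map_inv, eq_comm, ← eq_mul_inv_iff_mul_eq, eq_inv_mul_iff_mul_eq]
    simpa using h
  · rintro g i _ ⟨h, rfl⟩
    set w := g⁻¹ • (NormalWord.empty : NormalWord d) with hw
    have e : (g * of (φ := φ) i h)⁻¹ • (NormalWord.empty : NormalWord d) =
        of (φ := φ) i h⁻¹ • w := by
      rw [mul_inv_rev, mul_smul, map_inv]
    obtain ⟨q, hq, hq'⟩ := rcons_list i (NormalWord.equivPair i w)
    obtain ⟨q', hq2, hq2'⟩ := rcons_list i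
      { NormalWord.equivPair i w with head := h⁻¹ * (NormalWord.equivPair i w).head }
    refine ⟨q, q', (NormalWord.equivPair i w).tail.toList, ?_, ?_, hq', hq2'⟩
    · rw [← hq]
      exact congrArg (fun z : NormalWord d => z.toList)
        ((NormalWord.equivPair i).symm_apply_apply w).symm
    · rw [e, NormalWord.summand_smul_def]
      exact hq2

theorem amalgam_apc (hφ : ∀ i, Function.Injective (φ i)) (dG : ∀ i, G i → G i → ℝ)
    (hG : ∀ i, ProperInv (dG i) ∧ APC (dG i)) (d : PushoutI φ → PushoutI φ → ℝ)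
    (hd : ProperInv d) (N : Subgroup (PushoutI φ)) (hN : Commensurated N)
    (hA : APC fun x y : N => d x y) (k n : ℕ)
    (hk : ∀ g, ¬ Short φ k g →
      RelAsdimLE d N n {x | x ∈ (base φ).range ∧ g⁻¹ * x * g ∈ (base φ).range}) : APC d := by
  obtain ⟨T, hev, hH, hC⟩ := exists_tr hφ
  have hN' := comm_of hN
  have hg : GAPC (PushoutI φ) := by
    refine T.gapc (fun i => ?_) hN' ?_ k n ?_
    · rw [hH]
      have h1 := gapc_of_metric (dG i) (hG i).1.2.2.2.2.1 (hG i).1.2.2.2.2.2 (hG i).2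
      exact GAPC.of_injective (MonoidHom.ofInjective (of_injective hφ i)).symm.toMonoidHom
        (MonoidHom.ofInjective (of_injective hφ i)).symm.injective h1
    · refine gapc_of_metric (fun x y : N => d x y) (fun g x y => hd.2.2.2.2.1 _ _ _) (fun r => ?_) hA
      exact (hd.2.2.2.2.2 r).preimage (f := Subtype.val) Subtype.val_injective.injOn
    · intro a β hβ
      rw [hC]
      apply ra_of hd hN'
      apply hk
      rintro ⟨l, hl, rfl⟩
      have h1 := T.len_le l a
      have h2 : l.map T.ev = l.map fun p => of (φ := φ) p.1 p.2 :=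
        List.map_congr_left fun x _ => hev x
      rw [h2] at h1
      omega
  intro R _
  obtain ⟨m, U, B, h1, h2, h3⟩ := metric_of_gapc d hd.2.2.2.2.1 hd.2.2.2.2.2 hg R
  exact ⟨m, U, fun j hj => ⟨B, h1 j hj⟩, h2, h3⟩

end Pool.Agent.H702Z.Am
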