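import Mathlib
import Pool.Agent.H702Z.AmTree

set_option autoImplicit false
open Pointwise

namespace Pool.Agent.H702Z.Am
open Pool.Agent.H179Z.APC

section
variable {Γ : Type*} [Group Γ]

def PQ2 (N : Subgroup Γ) (M0 : Set Γ) (l : ℕ) (s : ℕ → {F : Set Γ // F.Finite}) : Prop :=
  ∀ (A : Set Γ) (w : ℕ → Γ → ℕ × Set Γ), A ⊆ M0 →
    (∀ i < l, ∀ a ∈ A, ∀ b ∈ A, w i a = w i b → a⁻¹ * b ∈ N) →
    ∀ t : ℕ → Set Γ, (∀ i, (t i).Finite) →
      ∃ L : Set Γ, L.Finite ∧ ∃ Y : ℕ → Set Γ, (∀ i, Y i ⊆ A) ∧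
        (∀ i < l, ∀ c, Sep (s i).1 L (Y i ∩ {g | w i g = c})) ∧
        Cov t {x | x ∈ A ∧ ∀ i < l, x ∉ Y i}

/-- The hypothesis of the relative fibering theorem. -/
def RelBase2 (N : Subgroup Γ) (M0 : Set Γ) : Prop :=
  ∀ R : ℕ → Set Γ, (∀ i, (R i).Finite) → ∃ n : ℕ, ∀ t : ℕ → Set Γ, (∀ i, (t i).Finite) →
    ∃ near : Set Γ, Cov t nearᶜ ∧ ∃ L : Set Γ, NFin N L ∧ ∃ Z : ℕ → Set Γ,
      (∀ x ∈ near ∩ M0, ∃ j < n, x ∈ Z j) ∧ ∀ j < n, Sep (R j) L (Z j)

lemma pq2_step {N : Subgroup Γ} {M0 : Set Γ} (hN : Comm N) (hb : RelBase2 N M0) (l : ℕ)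
    (s : ℕ → {F : Set Γ // F.Finite}) (h : ∀ r, PQ2 N M0 (l + 1) (Function.update s l r)) :
    PQ2 N M0 l s := by
  classical
  intro A w hAM hA t ht
  obtain ⟨n, hn⟩ := hb t ht
  obtain ⟨near0, ⟨n1, hfar⟩, L0, hL0, Z, hZ, hsepZ⟩ := hn (fun i => t (n + i)) fun i => ht _
  set near := near0 ∩ M0 with hnear0
  obtain ⟨M, m, hM, hm1, hm2⟩ := exists_index hN hL0
  have hcol : ∀ x, ∃ j, x ∈ near → j < n ∧ x ∈ Z j := by
    intro x
    by_cases hx : x ∈ near
    · obtain ⟨j, hj, hxj⟩ := hZ x hx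
      exact ⟨j, fun _ => ⟨hj, hxj⟩⟩
    · exact ⟨0, fun h => (hx h).elim⟩
  choose col hcol using hcol
  have hE : ∀ j, ∃ E : Setoid Γ, j < n → (∀ a ∈ Z j, ∀ b ∈ Z j, a⁻¹ * b ∈ t j → E a b) ∧
      (∀ a ∈ Z j, ∀ b ∈ Z j, E a b → a⁻¹ * b ∈ L0) := by
    intro j
    by_cases hj : j < n
    · obtain ⟨E, hE⟩ := hsepZ j hj
      exact ⟨E, fun _ => hE⟩
    · exact ⟨⊤, fun h => (hj h).elim⟩
  choose E hE using hE
  let wl : Γ → ℕ × Set Γ := fun a => (col a, {b | E (col a) a b})
  have hwl1 : ∀ a ∈ near, ∀ b ∈ near, wl a = wl b → a⁻¹ * b ∈ L0 := by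
    intro a ha b hb hab
    have h1 : col a = col b := congrArg Prod.fst hab
    have h2 : {x | E (col a) a x} = {x | E (col b) b x} := congrArg Prod.snd hab
    refine (hE (col a) (hcol a ha).1).2 a (hcol a ha).2 b (h1 ▸ (hcol b hb).2) ?_
    have : b ∈ {x | E (col b) b x} := (E _).refl b
    rw [← h2] at this
    exact this
  have hwl2 : ∀ a ∈ near, ∀ b ∈ near, col a = col b → a⁻¹ * b ∈ t (col a) → wl a = wl b := by
    intro a ha b hb hc hab
    have hEab : E (col a) a b :=
      (hE (col a) (hcol a ha).1).1 a (hcol a ha).2 b (hc ▸ (hcol b hb).2) hab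
    change (col a, {x | E (col a) a x}) = (col b, {x | E (col b) b x})
    rw [← hc]
    congr 1
    ext x
    exact ⟨fun h => (E _).trans ((E _).symm hEab) h, fun h => (E _).trans hEab h⟩
  let F : Set Γ := ⋃ j ∈ Set.Iio n, t j
  have hF : F.Finite := (Set.finite_Iio _).biUnion fun j _ => ht j
  have key : ∀ K : ℕ, ∀ τ : ℕ → Set Γ, (∀ i, (τ i).Finite) →
      ∃ L : Set Γ, L.Finite ∧ ∃ Y : ℕ → Set Γ, (∀ i, Y i ⊆ A ∩ near ∩ {g | m g < K}) ∧
        (∀ i < l, ∀ c, Sep (s i).1 L (Y i ∩ {g | w i g = c})) ∧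
        (∀ c, Sep F L (Y l ∩ {g | wl g = c})) ∧
        Cov τ {x | x ∈ A ∩ near ∩ {g | m g < K} ∧ ∀ i < l + 1, x ∉ Y i} := by
    intro K
    induction K with
    | zero =>
      intro τ _
      refine ⟨∅, Set.finite_empty, fun _ => ∅, fun _ => Set.empty_subset _, ?_, ?_, ?_⟩
      · intro i _ c
        simpa using sep_empty _ _
      · intro c
        simpa using sep_empty _ _
      · refine (cov_empty τ).mono ?_
        intro x hx
        exact absurd hx.1.2 (by simp)
    | succ K ih =>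
      intro τ hτ
      obtain ⟨L, hL, Y, hYA, hs1, hs2, n2, hc⟩ := ih τ hτ
      obtain ⟨L', hL', Y', hYA', hs', hc'⟩ := h ⟨big F L, big_finite hF hL⟩
        (A ∩ near ∩ {g | m g = K}) (Function.update w l wl) (fun x hx => hAM hx.1.1) (by
          intro i hi a ha b hb hab
          by_cases hil : i = l
          · subst hil
            rw [Function.update_self] at hab
            exact hm2 a b (hwl1 a ha.1.2 b hb.1.2 hab) (ha.2.trans hb.2.symm)
          · rw [Function.update_of_ne hil] at hab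
            exact hA i (by omega) a ha.1.1 b hb.1.1 hab)
        (fun i => τ (n2 + i)) fun i => hτ _
      refine ⟨L ∪ L' ∪ big F L * L' * big F L, (hL.union hL').union
        (((big_finite hF hL).mul hL').mul (big_finite hF hL)), fun i => Y i ∪ Y' i, ?_, ?_, ?_, ?_⟩
      · rintro i x (hx | hx)
        · exact ⟨(hYA i hx).1, Nat.lt_succ_of_lt (hYA i hx).2⟩
        · refine ⟨(hYA' i hx).1, ?_⟩
          have : m x = K := (hYA' i hx).2
          change m x < K + 1
          omega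
      · intro i hi c
        have h1 := hs1 i hi c
        have h2 := hs' i (by omega) c
        have hne : i ≠ l := by omega
        rw [Function.update_of_ne hne, Function.update_of_ne hne] at h2
        by_cases hex : ∃ a, a ∈ Y i ∧ w i a = c
        · obtain ⟨a, ha, hac⟩ := hex
          refine h1.mono subset_rfl (fun x hx => Or.inl (Or.inl hx)) ?_
          rintro b ⟨hb | hb, hbc⟩
          · exact ⟨hb, hbc⟩
          · exfalso
            have hf := hA i hi a (hYA i ha).1.1 b (hYA' i hb).1.1 (hac.trans hbc.symm)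
            have e1 := hm1 a b hf
            have e2 : m a < K := (hYA i ha).2
            have e3 : m b = K := (hYA' i hb).2
            omega
        · refine h2.mono subset_rfl (fun x hx => Or.inl (Or.inr hx)) ?_
          rintro b ⟨hb | hb, hbc⟩
          · exact (hex ⟨b, hb, hbc⟩).elim
          · exact ⟨hb, hbc⟩
      · intro c
        have h2 := hs' l (by omega) c
        rw [Function.update_self, Function.update_self] at h2
        refine (sep_union (hs2 c) h2).mono subset_rfl ?_ ?_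
        · rintro x (hx | hx)
          · exact Or.inl (Or.inl hx)
          · exact Or.inr hx
        · rw [Set.union_inter_distrib_right]
      · refine (hc.union' hc').mono ?_
        rintro x ⟨hx, hxY⟩
        have hx2 : m x < K + 1 := hx.2
        by_cases hK : m x = K
        · exact Or.inr ⟨⟨hx.1, hK⟩, fun i hi h => hxY i hi (Or.inr h)⟩
        · exact Or.inl ⟨⟨hx.1, by change m x < K; omega⟩, fun i hi h => hxY i hi (Or.inl h)⟩
  obtain ⟨L, hL, Y, hYA, hs1, hs2, hc⟩ := key M (fun i => t (n + (n1 + i))) fun i => ht _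
  refine ⟨L, hL, Y, fun i x hx => (hYA i hx).1.1, hs1, ?_⟩
  have h1 : CovN n t (Y l) := by
    refine ⟨L, hL, fun j => Y l ∩ {g | col g = j}, ?_, ?_⟩
    · intro x hx
      exact ⟨col x, (hcol x (hYA l hx).1.2).1, hx, rfl⟩
    · intro j hj
      apply sep_glue wl
      · intro c
        refine (hs2 c).mono (fun x hx => Set.mem_biUnion hj hx) subset_rfl ?_
        exact fun x hx => ⟨hx.1.1, hx.2⟩
      · intro a ha b hb hab
        have ha2 : col a = j := ha.2
        have hb2 : col b = j := hb.2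
        exact hwl2 a (hYA l ha.1).1.2 b (hYA l hb.1).1.2 (ha2.trans hb2.symm) (ha2 ▸ hab)
  refine (h1.union' (hfar.union' hc)).mono ?_
  rintro x ⟨hx, hxY⟩
  by_cases hl : x ∈ Y l
  · exact Or.inl hl
  · by_cases hnear : x ∈ near
    · refine Or.inr (Or.inr ⟨⟨⟨hx, hnear⟩, hM x⟩, fun i hi => ?_⟩)
      by_cases hil : i = l
      · exact hil ▸ hl
      · exact hxY i (by omega)
    · exact Or.inr (Or.inl fun h => hnear ⟨h, hAM hx⟩)

/-- Relative fibering theorem. -/
theorem rel_fibering2 {N : Subgroup Γ} {M0 : Set Γ} (hN : Comm N) (hA : GAPC N)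
    (hb : RelBase2 N M0) (t : ℕ → Set Γ) (ht : ∀ i, (t i).Finite) : Cov t M0 := by
  classical
  have h0 : PQ2 N M0 0 fun _ => ⟨∅, Set.finite_empty⟩ := by
    apply wf_tree (PQ2 N M0) _ (pq2_step hN hb)
    intro R
    obtain ⟨l, L, hL, Y, hcov, hsep⟩ := hA (fun i => Subtype.val ⁻¹' (R i).1)
      fun i => (R i).2.preimage Subtype.val_injective.injOn
    have h0 : ∀ a : Γ, ((QuotientGroup.mk a : Γ ⧸ N).out)⁻¹ * a ∈ N := by
      intro a
      rw [← QuotientGroup.eq]
      exact QuotientGroup.out_eq' _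
    let k : Γ → N := fun a => ⟨_, h0 a⟩
    have hk : ∀ a b : Γ, a⁻¹ * b ∈ N → (((k a)⁻¹ * k b : N) : Γ) = a⁻¹ * b := by
      intro a b hab
      simp [k, QuotientGroup.eq.2 hab, mul_assoc]
    refine ⟨l, fun s hs A w _ hw t ht => ⟨Subtype.val '' L, hL.image _,
      fun i => A ∩ k ⁻¹' Y i, fun i => Set.inter_subset_left, ?_, ?_⟩⟩
    · intro i hi c
      rw [hs i hi]
      refine Sep.pull (hsep i hi) k (fun a ha => ha.1.2) ?_ ?_
      · intro a ha b hb hab
        change (((k a)⁻¹ * k b : N) : Γ) ∈ (R i).1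
        rw [hk a b (hw i hi a ha.1.1 b hb.1.1 (ha.2.trans hb.2.symm))]
        exact hab
      · intro a ha b hb hab
        exact ⟨_, hab, hk a b (hw i hi a ha.1.1 b hb.1.1 (ha.2.trans hb.2.symm))⟩
    · refine (cov_empty t).mono ?_
      rintro x ⟨hx, hxY⟩
      obtain ⟨i, hi, hxi⟩ := hcov (k x)
      exact hxY i hi ⟨hx, hxi⟩
  obtain ⟨-, -, Y, -, -, h⟩ := h0 M0 (fun _ _ => (0, ∅)) subset_rfl
    (fun i hi => absurd hi (by simp)) t ht
  exact h.mono fun x hx => ⟨hx, fun i hi => absurd hi (by simp)⟩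

lemma gapc_of_cov (M : Subgroup Γ)
    (h : ∀ t : ℕ → Set Γ, (∀ i, (t i).Finite) → Cov t (M : Set Γ)) : GAPC M := by
  intro F hF
  obtain ⟨n, L, hL, Y, h1, h2⟩ := h (fun i => Subtype.val '' F i) fun i => (hF i).image _
  refine ⟨n, Subtype.val ⁻¹' L, hL.preimage Subtype.val_injective.injOn,
    fun i => Subtype.val ⁻¹' Y i, fun x => h1 x x.2, fun i hi => ?_⟩
  obtain ⟨E, e1, e2⟩ := h2 i hi
  exact ⟨E.comap Subtype.val, fun a ha b hb hab => e1 _ ha _ hb ⟨_, hab, rfl⟩,
    fun a ha b hb hab => e2 _ ha _ hb hab⟩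

end

variable {Γ : Type} [Group Γ] {α : Type} (T : Tr Γ α)

theorem Tr.relBase2 (hH : ∀ i, GAPC (T.H i)) {N : Subgroup Γ} (hN : Comm N) (k n : ℕ)
    (M : Subgroup Γ) (hM : M.Normal)
    (hk : ∀ a β, (T.u (a * β)).length + k ≤ (T.u a).length →
      RA N n {x | x ∈ M ∧ x ∈ T.C ∧ β⁻¹ * x * β ∈ T.C}) : RelBase2 N M := by
  intro R hR
  refine ⟨2 * (n + 1), fun t ht => ?_⟩
  have hF : (⋃ j ∈ Set.Iio (2 * (n + 1)), R j).Finite :=
    (Set.finite_Iio _).biUnion fun j _ => hR j
  set F := ⋃ j ∈ Set.Iio (2 * (n + 1)), R j with hFdef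
  obtain ⟨r, hr⟩ := T.suffix_set hF
  let q : Γ → ℕ := fun a => (T.u a).length / (r + 1)
  let win : Γ → ℕ × List α := fun a => (q a, (T.u a).reverse.take (q a * (r + 1) - r))
  obtain ⟨B1, hB1, n1, hc1⟩ := T.pd_drop hH (2 * r + 1) t ht
  obtain ⟨B2, hB2, n2, hc2⟩ := T.pd_trans (T.pd_drop hH k) hB1 (fun i => t (n1 + i)) fun i => ht _
  have hc3 := T.cov_ball hH (2 * r + 1 + k) (fun i => t (n1 + (n2 + i))) fun i => ht _
  let cls : Γ × Γ × ℕ → Set Γ := fun p => {g | T.u (g * p.1) = (T.u g).drop (2 * r + 1) ∧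
    T.u (g * p.1 * p.2.1) = (T.u (g * p.1)).drop k ∧ 2 * r + 1 + k ≤ (T.u g).length ∧
    (T.u g).length % (r + 1) = p.2.2}
  have hI : (B1 ×ˢ B2 ×ˢ Set.Iio (r + 1)).Finite := hB1.prod (hB2.prod (Set.finite_Iio _))
  have htw : TW N n win (⋃ p ∈ B1 ×ˢ B2 ×ˢ Set.Iio (r + 1), cls p ∩ M) := by
    apply tw_biUnion hN hI
    rintro ⟨β1, β2, o⟩ -
    rcases (cls (β1, β2, o)).eq_empty_or_nonempty with he | ⟨a0, h1, h2, h3, -⟩
    · rw [he, Set.empty_inter]
      exact tw_empty N n win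
    · refine tw_of_ra hN (hk (a0 * β1) β2 ?_) β1 ?_
      · simp only at h1 h2
        rw [h2, h1]
        simp only [List.length_drop]
        omega
      · rintro a ⟨⟨ha1, ha2, ha3, ha4⟩, haM⟩ b ⟨⟨hb1, hb2, hb3, hb4⟩, hbM⟩ hab
        simp only at ha1 ha2 ha4 hb1 hb2 hb4
        have hq : q a = q b := congrArg Prod.fst hab
        have hs : (T.u a).reverse.take (q a * (r + 1) - r) =
            (T.u b).reverse.take (q b * (r + 1) - r) := congrArg Prod.snd hab
        have la := Nat.div_add_mod (T.u a).length (r + 1)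
        have lb := Nat.div_add_mod (T.u b).length (r + 1)
        have lo : (T.u a).length % (r + 1) < r + 1 := Nat.mod_lt _ (by omega)
        change (r + 1) * q a + _ = _ at la
        change (r + 1) * q b + _ = _ at lb
        rw [← hq] at lb hs
        rw [mul_comm] at la lb
        have hl : (T.u a).length = (T.u b).length := by omega
        have hd : (T.u a).drop (2 * r + 1) = (T.u b).drop (2 * r + 1) := by
          have e := congrArg (List.take ((T.u a).length - (2 * r + 1))) hs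
          rw [List.take_take, List.take_take, min_eq_left (by omega), List.take_reverse,
            List.take_reverse, List.reverse_inj] at e
          have e1 : (T.u a).length - ((T.u a).length - (2 * r + 1)) = 2 * r + 1 := by omega
          have e2 : (T.u b).length - ((T.u a).length - (2 * r + 1)) = 2 * r + 1 := by omega
          rwa [e1, e2] at e
        have e1 : T.u (a * β1) = T.u (b * β1) := by rw [ha1, hb1, hd]
        have e2 : T.u (a * β1 * β2) = T.u (b * β1 * β2) := by rw [ha2, hb2, e1]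
        refine ⟨?_, T.same e1, ?_⟩
        · have := hM.conj_mem _ (M.mul_mem (M.inv_mem haM) hbM) β1⁻¹
          simpa [mul_assoc] using this
        · have := T.same e2
          simpa [mul_assoc] using this
  obtain ⟨L, hL, Y, hY1, hY2⟩ := htw F (nfin_of_finite N hF)
  refine ⟨⋃ p ∈ B1 ×ˢ B2 ×ˢ Set.Iio (r + 1), cls p, (hc1.union' (hc2.union' hc3)).mono ?_, L, hL,
    fun j => Y (j / 2) ∩ {a | q a % 2 = j % 2}, ?_, ?_⟩
  · intro g hg
    by_contra hcon
    simp only [Set.mem_union, not_or, Set.mem_setOf_eq] at hcon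
    obtain ⟨h1, h2, h3⟩ := hcon
    push Not at h1 h2 h3
    obtain ⟨β1, hβ1, e1⟩ := h1
    obtain ⟨β2, hβ2, e2⟩ := h2 β1 hβ1
    exact hg (Set.mem_biUnion (x := (β1, β2, (T.u g).length % (r + 1)))
      ⟨hβ1, hβ2, Nat.mod_lt _ (by omega)⟩ ⟨e1, e2, h3.le, rfl⟩)
  · rintro x ⟨hx0, hxM⟩
    have hx : x ∈ ⋃ p ∈ B1 ×ˢ B2 ×ˢ Set.Iio (r + 1), cls p ∩ M := by
      simp only [Set.mem_iUnion] at hx0 ⊢
      obtain ⟨p, hp, hxp⟩ := hx0
      exact ⟨p, hp, hxp, hxM⟩
    obtain ⟨j, hj, hxj⟩ := hY1 x hx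
    have := Nat.mod_lt (q x) (show 0 < 2 by norm_num)
    refine ⟨2 * j + q x % 2, by omega, ?_, ?_⟩
    · have e : (2 * j + q x % 2) / 2 = j := by omega
      simpa only [e] using hxj
    · change q x % 2 = (2 * j + q x % 2) % 2
      omega
  · intro j hj
    apply sep_glue win
    · intro c
      refine (hY2 (j / 2) (by omega) c).mono (fun x hx => Set.mem_biUnion hj hx) subset_rfl ?_
      exact fun x hx => ⟨hx.1.1, hx.2⟩
    · intro a ha b hb hab
      obtain ⟨p, p', c, h1', h2', h3, h4⟩ := hr _ (Set.mem_biUnion hj hab) a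
      rw [mul_inv_cancel_left] at h2'
      have la : (T.u a).length = p.length + c.length := by rw [h1']; simp
      have lb : (T.u b).length = p'.length + c.length := by rw [h2']; simp
      have ha' : q a % 2 = j % 2 := ha.2
      have hb' : q b % 2 = j % 2 := hb.2
      have e1 : q a * (r + 1) ≤ (T.u a).length := Nat.div_mul_le_self _ _
      have e2 : q b * (r + 1) ≤ (T.u b).length := Nat.div_mul_le_self _ _
      have e3 : (T.u a).length < (q a + 1) * (r + 1) := by
        rw [mul_comm]; exact Nat.lt_mul_div_succ _ (by omega)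
      have e4 : (T.u b).length < (q b + 1) * (r + 1) := by
        rw [mul_comm]; exact Nat.lt_mul_div_succ _ (by omega)
      have hq : q a = q b := by
        by_contra hne
        rcases Nat.lt_or_gt_of_ne hne with h | h
        · have : q a + 2 ≤ q b := by omega
          have := Nat.mul_le_mul_right (r + 1) this
          nlinarith
        · have : q b + 2 ≤ q a := by omega
          have := Nat.mul_le_mul_right (r + 1) this
          nlinarith
      change (q a, _) = (q b, _)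
      rw [← hq]
      have hk : q a * (r + 1) - r ≤ c.reverse.length := by
        rw [List.length_reverse]
        omega
      congr 1
      rw [h1', h2', List.reverse_append, List.reverse_append, List.take_append_of_le_length hk,
        List.take_append_of_le_length hk]

theorem Tr.gapc2 (hH : ∀ i, GAPC (T.H i)) {N : Subgroup Γ} (hN : Comm N) (hA : GAPC N) (k n : ℕ)
    {Q : Type} [Group Q] (ρ : Γ →* Q) (hQ : GAPC Q)
    (hk : ∀ a β, (T.u (a * β)).length + k ≤ (T.u a).length →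
      RA N n {x | x ∈ ρ.ker ∧ x ∈ T.C ∧ β⁻¹ * x * β ∈ T.C}) : GAPC Γ :=
  GAPC.ext ρ hQ (gapc_of_cov _ (rel_fibering2 hN hA (T.relBase2 hH hN k n ρ.ker inferInstance hk)))

end Pool.Agent.H702Z.Am
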