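import Mathlib
import Pool.Agent.H702Z.AmTree2
import Pool.Agent.H702Z.AmMain

set_option autoImplicit false
open Pointwise

namespace Pool.Agent.H702Z.Am
open Pool.Agent.H179Z.APC Pool.Agent.H702Z.AmDefs Monoid Monoid.PushoutI

variable {G : Bool → Type} [∀ i, Group (G i)] {C : Type} [Group C] {φ : ∀ i, C →* G i}

theorem amalgam_apc2 (hφ : ∀ i, Function.Injective (φ i)) (dG : ∀ i, G i → G i → ℝ)
    (hG : ∀ i, ProperInv (dG i) ∧ APC (dG i)) (d : PushoutI φ → PushoutI φ → ℝ)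
    (hd : ProperInv d) {Q : Type} [Group Q] (ρ : PushoutI φ →* Q) (dQ : Q → Q → ℝ)
    (hQ : ProperInv dQ ∧ APC dQ) (N : Subgroup (PushoutI φ)) (hN : Commensurated N)
    (hA : APC fun x y : N => d x y) (k n : ℕ)
    (hk : ∀ g, ¬ Short φ k g → RelAsdimLE d N n
      {x | ρ x = 1 ∧ x ∈ (base φ).range ∧ g⁻¹ * x * g ∈ (base φ).range}) : APC d := by
  obtain ⟨T, hev, hH, hC⟩ := exists_tr hφ
  have hN' := comm_of hN
  have hg : GAPC (PushoutI φ) := by
    refine T.gapc2 (fun i => ?_) hN' ?_ k n ρ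
      (gapc_of_metric dQ hQ.1.2.2.2.2.1 hQ.1.2.2.2.2.2 hQ.2) ?_
    · rw [hH]
      have h1 := gapc_of_metric (dG i) (hG i).1.2.2.2.2.1 (hG i).1.2.2.2.2.2 (hG i).2
      exact GAPC.of_injective (MonoidHom.ofInjective (of_injective hφ i)).symm.toMonoidHom
        (MonoidHom.ofInjective (of_injective hφ i)).symm.injective h1
    · refine gapc_of_metric (fun x y : N => d x y) (fun g x y => hd.2.2.2.2.1 _ _ _) (fun r => ?_) hA
      exact (hd.2.2.2.2.2 r).preimage (f := Subtype.val) Subtype.val_injective.injOn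
    · intro a β hβ
      rw [hC]
      apply ra_of hd hN'
      apply hk
      rintro ⟨l, hl, rfl⟩
      have h1 := T.len_le l a
      have h2 : l.map T.ev = l.map fun p => of (φ := φ) p.1 p.2 :=
        List.map_congr_left fun x _ => hev x
      rw [h2] at h1
      omega
  intro R _
  obtain ⟨m, U, B, h1, h2, h3⟩ := metric_of_gapc d hd.2.2.2.2.1 hd.2.2.2.2.2 hg R
  exact ⟨m, U, fun j hj => ⟨B, h1 j hj⟩, h2, h3⟩

end Pool.Agent.H702Z.Am
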